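import Pool.Agent.H77.ST.CAM

/-!
# Aleph one need not work for aleph one

It is consistent with ZFC that there are a graph `X` of order `ℵ₁` and a group `G` of order `ℵ₁`
such that `X` is not an induced subgraph of any Cayley graph of `G`. There is a sentence `φ` of
the language of set theory which says that `ℵ₁` does not work for `ℵ₁`
(`AlephOneDoesNotWork E` is what `φ` says in a structure `(N, E)`), and there is a countable
well-founded model of ZFC in which `φ` holds.

The definitions of the notions inside a structure (the first uncountable ordinal, groups, graphs,
connection sets of Cayley graphs, induced embeddings) are in `Pool/Agent/H77/ST/CAD.lean`.

The graph is a Sierpiński graph of the ground model. The group is generic: a condition is a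
finite group whose elements belong to an uncountable well ordered set with levels, such that the
elements of level at most `l` form a subgroup for every `l`. Given uncountably many conditions
`p ξ` with elements `v ξ`, there are indices `α`, `β`, `γ` such that `α`, `γ` are adjacent, `β`,
`γ` are not adjacent, and a common extension of `p α`, `p β`, `p γ` contains an element `w`
with `v α * w = v γ` and `v γ * w = v β`: the three conditions are amalgamated in a wreath
product with `ℤ/4` on the cosets of their common part. So in the extension, for every injective
map of the graph into the group, the quotient of an adjacent pair is also the quotient of a
pair which is not adjacent. The model is a countable generic quotient of the class of names over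
the universe of Lean.
-/

namespace Pool.Agent.Results.MP_fe7b28_co.ConsistentFailure

open ST ST.CA

/-- It is consistent with ZFC that aleph one does not work for aleph one. -/
theorem result :
    ∃ φ : Fml 0,
      (∀ (N : Type) (E : N → N → Prop), Sat E φ Fin.elim0 ↔ AlephOneDoesNotWork E) ∧
      ∃ (N : Type) (E : N → N → Prop), ZFC E ∧ Countable N ∧ WellFounded E ∧
        Sat E φ Fin.elim0 :=
  main

end Pool.Agent.Results.MP_fe7b28_co.ConsistentFailure
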