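import Mathlib
import Pool.Agent.H82.SID.Top
import Pool.Agent.H82.SID.Sidon

set_option autoImplicit false

/-!
Whether `aleph_1` works for `aleph_1` is independent of ZFC: it fails under the diamond principle
(with a locally finite group of order `aleph_1`), and it holds under the proper forcing axiom.
All definitions used by the statement are in `Pool/Agent/H82/SID/Defs.lean` (and `IsClub` in
`Pool/Agent/H82/SID/Order.lean`).

Under diamond, a locally finite group of order `aleph_1` is built as an increasing union of
countable groups `U a`, together with a graph on `omega_1`: the diamond sequence guesses an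
injective map from `a` to `U a`, the neighbours of `a` below `a` split all infinite type classes
of the guessed values, and every later element `x` of the group is arranged to satisfy
`x * b⁻¹ * x = b'` for some values `b` at a neighbour and `b'` at a non-neighbour.
Under the proper forcing axiom, a proper poset of finite conditions with side conditions adds an
uncountable Sidon set to every uncountable group.
-/

namespace Pool.Agent.Results.MP_fe7b28_co.Independence

open Cardinal Pool.SID

/-- Diamond gives a group and a graph, both of order `aleph_1`, such that no Cayley graph of the
group contains the graph as an induced subgraph. The proper forcing axiom implies that `aleph_1`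
works for `aleph_1`. -/
theorem result :
    (Diamond → ∃ (V : Type) (X : SimpleGraph V) (G : Type) (_ : Group G),
      #V = Cardinal.aleph 1 ∧ #G = Cardinal.aleph 1 ∧
      (∀ F : Set G, F.Finite → (Subgroup.closure F : Set G).Finite) ∧
      ∀ S : Set G, IsConnectionSet S → ¬ EmbedsInduced X S) ∧
    (PFA → AlephOneWorks) := by
  refine ⟨?_, works_of_pfa⟩
  rintro ⟨A, hA⟩
  obtain ⟨G, iG, X, hG, hlf, hX⟩ := top_theorem Omega1 Omega1_countable Omega1_card A
    (fun X C hC => by
      obtain ⟨a, ha, h1⟩ := hA X C hC
      exact ⟨a, ha, h1.symm⟩)
  exact ⟨Omega1, X, G, iG, Omega1_card, hG, hlf, fun S _ hS => hX S hS⟩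

end Pool.Agent.Results.MP_fe7b28_co.Independence
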